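import Pool.Agent.Helper18.SphereRes.Fourier

set_option autoImplicit false

open Finset Matrix

namespace Pool.Agent.Helper18.SphereRes

variable {F : Type} [Field F] [Fintype F] [DecidableEq F]

lemma mem_sphere {d : ℕ} {j : F} {x : Fin d → F} : x ∈ sphere d j ↔ x ⬝ᵥ x = j := by
  simp [sphere, dotProduct, sq]

lemma three_le_card (hF : ringChar F ≠ 2) : 3 ≤ Fintype.card F := by
  have h1 := FiniteField.odd_card_of_char_ne_two hF
  have h2 := Fintype.one_lt_card (α := F)
  omega

lemma exists_sq_add_sq (hF : ringChar F ≠ 2) (x : F) : ∃ a b : F, a ^ 2 + b ^ 2 = x := by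
  obtain ⟨a, b, hab⟩ := FiniteField.exists_root_sum_quadratic
    (f := (Polynomial.X : Polynomial F) ^ 2) (g := Polynomial.X ^ 2 - Polynomial.C x)
    (by simp) (Polynomial.degree_X_pow_sub_C (by norm_num) _)
    (FiniteField.odd_card_of_char_ne_two hF)
  refine ⟨a, b, ?_⟩
  simp only [Polynomial.eval_sub, Polynomial.eval_pow, Polynomial.eval_X, Polynomial.eval_C] at hab
  rw [← sub_eq_zero, ← hab]
  ring

lemma card_sq_le (a : F) : #(univ.filter fun x : F => x ^ 2 = a) ≤ 2 := by
  rcases Finset.eq_empty_or_nonempty (univ.filter fun x : F => x ^ 2 = a) with h | ⟨y, hy⟩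
  · rw [h]; simp
  · have hy' : y ^ 2 = a := (Finset.mem_filter.mp hy).2
    refine (Finset.card_le_card (t := {y, -y}) ?_).trans Finset.card_le_two
    intro x hx
    have hx' : x ^ 2 = a := (Finset.mem_filter.mp hx).2
    have : x ^ 2 = y ^ 2 := by rw [hx', hy']
    rcases sq_eq_sq_iff_eq_or_eq_neg.mp this with h | h
    · simp [h]
    · simp [h]

/-- Points of the plane with `x² + y² = c`. -/
def circ (c : F) : Finset (F × F) := univ.filter fun z => z.1 ^ 2 + z.2 ^ 2 = c

lemma circ_card_le (hF : ringChar F ≠ 2) {c c' : F} (hc : c ≠ 0) (hc' : c' ≠ 0) :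
    #(circ c) ≤ #(circ c') := by
  obtain ⟨u, v, huv⟩ := exists_sq_add_sq hF (c' / c)
  have hne : u ^ 2 + v ^ 2 ≠ 0 := by rw [huv]; exact div_ne_zero hc' hc
  apply Finset.card_le_card_of_injOn (fun z => (u * z.1 - v * z.2, v * z.1 + u * z.2))
  · intro z hz
    simp only [circ, Finset.coe_filter, Finset.mem_univ, true_and, Set.mem_ofPred_eq] at hz ⊢
    have : (u * z.1 - v * z.2) ^ 2 + (v * z.1 + u * z.2) ^ 2
        = (u ^ 2 + v ^ 2) * (z.1 ^ 2 + z.2 ^ 2) := by ring
    rw [this, hz, huv, div_mul_cancel₀ _ hc]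
  · intro z _ w _ h
    simp only [Prod.mk.injEq] at h
    obtain ⟨h1, h2⟩ := h
    have e1 : (u ^ 2 + v ^ 2) * (z.1 - w.1) = 0 := by linear_combination u * h1 + v * h2
    have e2 : (u ^ 2 + v ^ 2) * (z.2 - w.2) = 0 := by linear_combination u * h2 - v * h1
    have e3 := (mul_eq_zero.mp e1).resolve_left hne
    have e4 := (mul_eq_zero.mp e2).resolve_left hne
    exact Prod.ext (sub_eq_zero.mp e3) (sub_eq_zero.mp e4)

lemma circ_zero_le : #(circ (0 : F)) ≤ 2 * Fintype.card F := by
  have h := Finset.card_le_mul_card_image (f := fun z : F × F => z.2) (circ (0 : F)) 2 (by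
    intro b _
    refine (Finset.card_le_card_of_injOn (fun z => z.1) (t := univ.filter fun x : F => x ^ 2 = -b ^ 2)
      ?_ ?_).trans (card_sq_le _)
    · intro z hz
      simp only [circ, Finset.coe_filter, Finset.mem_filter, Finset.mem_univ, true_and,
        Set.mem_ofPred_eq] at hz ⊢
      rw [← hz.2]
      linear_combination hz.1
    · intro z hz w hw h
      simp only [Finset.coe_filter, Set.mem_ofPred_eq] at hz hw
      exact Prod.ext h (hz.2.trans hw.2.symm))
  refine h.trans (Nat.mul_le_mul_left _ ?_)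
  exact (Finset.card_le_univ _)

lemma circ_card_ge (hF : ringChar F ≠ 2) {c : F} (hc : c ≠ 0) :
    Fintype.card F - 1 ≤ #(circ c) := by
  set q := Fintype.card F with hq
  have hq3 : 3 ≤ q := three_le_card hF
  have h1 : ∑ c' : F, #(circ c') = q ^ 2 := by
    have := Finset.card_eq_sum_card_fiberwise (f := fun z : F × F => z.1 ^ 2 + z.2 ^ 2)
      (s := univ) (t := univ) (by intro x _; simp)
    rw [Finset.card_univ, Fintype.card_prod, ← hq] at this
    rw [sq, this]
    rfl
  have h2 : ∑ c' : F, #(circ c') = #(circ (0 : F)) + (q - 1) * #(circ c) := by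
    rw [← Finset.add_sum_erase univ _ (Finset.mem_univ (0 : F))]
    congr 1
    rw [Finset.sum_congr rfl (g := fun _ => #(circ c))]
    · rw [Finset.sum_const, Finset.card_erase_of_mem (Finset.mem_univ _), Finset.card_univ,
        smul_eq_mul]
    · intro c' hc'
      have hc'0 : c' ≠ 0 := Finset.ne_of_mem_erase hc'
      exact le_antisymm (circ_card_le hF hc'0 hc) (circ_card_le hF hc hc'0)
  have h3 := circ_zero_le (F := F)
  rw [← hq] at h3
  rw [h1] at h2
  by_contra hlt
  push Not at hlt
  have h4 : (q - 1) * #(circ c) ≤ (q - 1) * (q - 2) := Nat.mul_le_mul_left _ (by omega)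
  obtain ⟨t, ht⟩ : ∃ t, q = t + 3 := ⟨q - 3, by omega⟩
  rw [ht] at h2 h3 h4
  simp only [show t + 3 - 1 = t + 2 by omega, show t + 3 - 2 = t + 1 by omega] at h2 h4
  nlinarith

lemma sphere_card_le (m : ℕ) (j : F) : #(sphere (m + 1) j) ≤ 2 * Fintype.card F ^ m := by
  have h := Finset.card_le_mul_card_image (f := fun z : Fin (m + 1) → F => vecTail z)
    (sphere (m + 1) j) 2 (by
    intro w _
    refine (Finset.card_le_card_of_injOn (fun z => vecHead z)
      (t := univ.filter fun x : F => x ^ 2 = j - w ⬝ᵥ w) ?_ ?_).trans (card_sq_le _)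
    · intro z hz
      simp only [Finset.coe_filter, Finset.mem_univ, true_and,
        Set.mem_ofPred_eq, mem_sphere] at hz ⊢
      obtain ⟨h1, h2⟩ := hz
      rw [← cons_head_tail z, cons_dotProduct_cons, h2] at h1
      rw [← h1]
      ring
    · intro z hz w' hw h
      simp only [Finset.coe_filter, Set.mem_ofPred_eq] at hz hw
      dsimp only at h
      rw [← cons_head_tail z, ← cons_head_tail w', hz.2, hw.2, h])
  refine h.trans (Nat.mul_le_mul_left _ ?_)
  refine (Finset.card_le_univ _).trans ?_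
  simp

lemma sphere_card_ge (hF : ringChar F ≠ 2) (m : ℕ) {j : F} (hj : j ≠ 0) :
    2 * Fintype.card F ^ (m + 1) ≤ 9 * #(sphere (m + 2) j) := by
  set q := Fintype.card F with hq
  have hq3 : 3 ≤ q := three_le_card hF
  -- injection
  have h1 : (q - 1) * #(univ.filter fun w : Fin m → F => ¬ w ⬝ᵥ w = j) ≤ #(sphere (m + 2) j) := by
    have hcard : #((univ.filter fun w : Fin m → F => ¬ w ⬝ᵥ w = j).sigma
        (fun w => circ (j - w ⬝ᵥ w))) ≤ #(sphere (m + 2) j) := by
      apply Finset.card_le_card_of_injOn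
        (fun p : (_ : Fin m → F) × (F × F) => vecCons p.2.1 (vecCons p.2.2 p.1))
      · intro p hp
        simp only [Finset.mem_coe, Finset.mem_sigma, Finset.mem_filter, Finset.mem_univ, true_and,
          circ, mem_sphere] at hp ⊢
        rw [cons_dotProduct_cons, cons_dotProduct_cons]
        linear_combination hp.2
      · rintro ⟨w, x, y⟩ _ ⟨w', x', y'⟩ _ h
        simp only [vecCons_inj] at h
        obtain ⟨h1, h2, h3⟩ := h
        subst h1 h2 h3
        rfl
    refine le_trans ?_ hcard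
    rw [Finset.card_sigma, mul_comm, ← smul_eq_mul, ← Finset.sum_const]
    apply Finset.sum_le_sum
    intro w hw
    apply circ_card_ge hF
    have := (Finset.mem_filter.mp hw).2
    intro h
    exact this (sub_eq_zero.mp h).symm
  have h2 : #(univ.filter fun w : Fin m → F => w ⬝ᵥ w = j)
      + #(univ.filter fun w : Fin m → F => ¬ w ⬝ᵥ w = j) = q ^ m := by
    rw [Finset.card_filter_add_card_filter_not]
    simp [hq]
  have h3 : (univ.filter fun w : Fin m → F => w ⬝ᵥ w = j) = sphere m j := by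
    ext w
    simp [mem_sphere]
  rw [h3] at h2
  rcases m with _ | m
  · have h4 : #(sphere 0 j) = 0 := by
      rw [Finset.card_eq_zero]
      ext w
      simp only [mem_sphere, dotProduct_of_isEmpty, Finset.notMem_empty, iff_false]
      exact hj.symm
    rw [h4] at h2
    simp only [zero_add, pow_zero, pow_one] at h2 ⊢
    rw [h2, mul_one] at h1
    omega
  · have h4 := sphere_card_le m j
    rw [← hq] at h4
    obtain ⟨t, ht⟩ : ∃ t, q = t + 3 := ⟨q - 3, by omega⟩
    rw [ht] at h1 h2 h4 ⊢
    simp only [show t + 3 - 1 = t + 2 by omega] at h1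
    set N := #(univ.filter fun w : Fin (m + 1) → F => ¬ w ⬝ᵥ w = j)
    set S := #(sphere (m + 1 + 2) j)
    have h5 : (t + 1) * (t + 3) ^ m ≤ N := by
      rw [pow_succ] at h2
      nlinarith
    have h6 : (t + 2) * ((t + 1) * (t + 3) ^ m) ≤ S := (Nat.mul_le_mul_left _ h5).trans h1
    have h7 : 2 * (t + 3) ^ 2 ≤ 9 * ((t + 2) * (t + 1)) := by nlinarith
    calc 2 * (t + 3) ^ (m + 1 + 1) = (2 * (t + 3) ^ 2) * (t + 3) ^ m := by ring
      _ ≤ (9 * ((t + 2) * (t + 1))) * (t + 3) ^ m := Nat.mul_le_mul_right _ h7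
      _ = 9 * ((t + 2) * ((t + 1) * (t + 3) ^ m)) := by ring
      _ ≤ 9 * S := Nat.mul_le_mul_left _ h6

end Pool.Agent.Helper18.SphereRes
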