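import Mathlib

set_option autoImplicit false

open Finset
open scoped ENNReal

namespace Pool.Agent.Helper18.SphereRes

/-- The sphere `S_j^{d-1} = {x ∈ F^d : x_1^2 + ... + x_d^2 = j}` of radius `j`. -/
def sphere {F : Type} [Field F] [Fintype F] [DecidableEq F] (d : ℕ) (j : F) :
    Finset (Fin d → F) :=
  univ.filter fun x => ∑ k, x k ^ 2 = j

/-- The Fourier transform `ĝ(x) = ∑_{m ∈ F^d} χ(-m·x) g(m)` with respect to the additive
character `χ`. -/
noncomputable def fourier {F : Type} [Field F] [Fintype F] (χ : AddChar F ℂ) {d : ℕ}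
    (g : (Fin d → F) → ℂ) (x : Fin d → F) : ℂ :=
  ∑ m : Fin d → F, χ (-(m ⬝ᵥ x)) * g m

/-- The norm `‖f‖_{L^r(S)}` for the normalised counting measure on the finite set `S`,
the maximum for `r = ∞`. -/
noncomputable def normL {V : Type} (S : Finset V) (r : ℝ≥0∞) (f : V → ℂ) : ℝ :=
  if r = ∞ then ⨆ x : S, ‖f x‖
  else ((#S : ℝ)⁻¹ * ∑ x ∈ S, ‖f x‖ ^ r.toReal) ^ (1 / r.toReal)

/-- The norm `‖g‖_{ℓ^p(V)}` for the counting measure on the finite type `V`, the maximum for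
`p = ∞`. -/
noncomputable def normEll {V : Type} [Fintype V] (p : ℝ≥0∞) (g : V → ℂ) : ℝ :=
  if p = ∞ then ⨆ m : V, ‖g m‖
  else (∑ m : V, ‖g m‖ ^ p.toReal) ^ (1 / p.toReal)

/-- The restriction constant `R_{S_j^{d-1}}(p → r)`: the least `C` with
`‖ĝ‖_{L^r(S_j^{d-1})} ≤ C ‖g‖_{ℓ^p(F^d)}` for all `g`. -/
noncomputable def restrConst {F : Type} [Field F] [Fintype F] [DecidableEq F]
    (χ : AddChar F ℂ) (d : ℕ) (j : F) (p r : ℝ≥0∞) : ℝ≥0∞ :=
  sInf {C : ℝ≥0∞ | ∀ g : (Fin d → F) → ℂ,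
    ENNReal.ofReal (normL (sphere d j) r (fourier χ g)) ≤ C * ENNReal.ofReal (normEll p g)}

/-- The five cases of the problem. -/
inductive Case
  | one
  | two
  | three
  | four
  | five

/-- `(d, j)` is in the given case of the problem (`quadraticChar F` is the quadratic character
`η`). -/
def Case.Holds (c : Case) {F : Type} [Field F] [Fintype F] [DecidableEq F] (d : ℕ) (j : F) :
    Prop :=
  match c with
  | one => Even d
  | two => d % 4 = 1 ∧ quadraticChar F j = -1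
  | three => d % 4 = 1 ∧ quadraticChar F j = 1
  | four => d % 4 = 3 ∧ quadraticChar F (-j) = -1
  | five => d % 4 = 3 ∧ quadraticChar F (-j) = 1

/-- The number `y_0(d, j)` in the given case. -/
noncomputable def Case.y0 (c : Case) (d : ℕ) : ℝ :=
  match c with
  | one => ((d : ℝ) ^ 2 + d - 2) / (2 * (d : ℝ) ^ 2)
  | two => ((d : ℝ) ^ 2 + 2 * d - 3) / (2 * (d : ℝ) ^ 2 + 2 * d)
  | three => ((d : ℝ) + 1) / (2 * d)
  | four => ((d : ℝ) ^ 2 + 2 * d - 3) / (2 * (d : ℝ) ^ 2 + 2 * d)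
  | five => ((d : ℝ) + 1) / (2 * d)

/-- The region `Ω_d(y)`. -/
noncomputable def Omega (d : ℕ) (y : ℝ) : Set (ℝ × ℝ) :=
  convexHull ℝ {((1 : ℝ), (0 : ℝ)), (1, 1), (((d : ℝ) + 1) / (2 * d), 1),
    (((d : ℝ) + 1) / (2 * d), y)}

/-- `R_{S_j^{d-1}}(p → r) ≲ 1` in the given case: for fixed `d, p, r` the constants are bounded
uniformly over all finite fields `F` of odd order, all non-trivial additive characters of `F`
and all `j ≠ 0` in the given case. -/
def UniformlyBounded (c : Case) (d : ℕ) (p r : ℝ≥0∞) : Prop :=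
  ∃ C : ℝ, ∀ (F : Type) [Field F] [Fintype F] [DecidableEq F], ringChar F ≠ 2 →
    ∀ χ : AddChar F ℂ, χ ≠ 1 → ∀ j : F, j ≠ 0 → c.Holds d j →
      restrConst χ d j p r ≤ ENNReal.ofReal C

/-- The assertion of Q1: in every dimension `d ≥ 2` and in each of the five cases, the estimate
`R_{S_j^{d-1}}(p → r) ≲ 1` holds whenever `(1/p, 1/r) ∈ Ω_d(y_0)`. -/
def RestrictionConjecture : Prop :=
  ∀ d : ℕ, 2 ≤ d → ∀ c : Case, ∀ p r : ℝ≥0∞, 1 ≤ p → 1 ≤ r →
    ((p⁻¹).toReal, (r⁻¹).toReal) ∈ Omega d (c.y0 d) → UniformlyBounded c d p r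

end Pool.Agent.Helper18.SphereRes
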