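import Pool.Agent.Helper18.SphereRes.Count

set_option autoImplicit false

open Finset Matrix

namespace Pool.Agent.Helper18.SphereRes

variable {F : Type} [Field F] [Fintype F] [DecidableEq F]

/-- A totally isotropic subspace of size `q^i` whose orthogonal complement contains many points
of the sphere. -/
def Good (d i : ℕ) (j : F) : Prop :=
  ∃ U : Finset (Fin d → F), IsSub U ∧ #U = Fintype.card F ^ i ∧
    (∀ u ∈ U, ∀ v ∈ U, u ⬝ᵥ v = 0) ∧
    2 * Fintype.card F ^ (d - i - 1) ≤ 9 * #(sphere d j ∩ perp U)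

lemma mem_perp {d : ℕ} {U : Finset (Fin d → F)} {x : Fin d → F} :
    x ∈ perp U ↔ ∀ u ∈ U, x ⬝ᵥ u = 0 := by
  simp [perp]

lemma good_zero (hF : ringChar F ≠ 2) {j : F} (hj : j ≠ 0) {d : ℕ} (hd : 2 ≤ d) :
    Good d 0 j := by
  obtain ⟨m, rfl⟩ : ∃ m, d = m + 2 := ⟨d - 2, by omega⟩
  refine ⟨{0}, ⟨by simp, by simp, by simp⟩, by simp, by simp, ?_⟩
  have h : sphere (m + 2) j ∩ perp ({0} : Finset (Fin (m + 2) → F)) = sphere (m + 2) j := by
    apply Finset.inter_eq_left.mpr
    intro x _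
    rw [mem_perp]
    simp
  rw [h]
  have := sphere_card_ge hF m hj
  simpa using this

/-- The isometric embedding of `F^2 ⊕ F^d` (the first summand totally isotropic). -/
def emb (a b : F) {d : ℕ} (s t : F) (x : Fin d → F) : Fin (d + 4) → F :=
  vecCons s (vecCons t (vecCons (s * a - t * b) (vecCons (s * b + t * a) x)))

lemma emb_dot {a b : F} (hab : a ^ 2 + b ^ 2 = -1) {d : ℕ} (s t s' t' : F) (x x' : Fin d → F) :
    emb a b s t x ⬝ᵥ emb a b s' t' x' = x ⬝ᵥ x' := by
  unfold emb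
  simp only [cons_dotProduct_cons]
  linear_combination (s * s' + t * t') * hab

lemma emb_inj {a b : F} {d : ℕ} {s t s' t' : F} {x x' : Fin d → F}
    (h : emb a b s t x = emb a b s' t' x') : s = s' ∧ t = t' ∧ x = x' := by
  unfold emb at h
  simp only [vecCons_inj] at h
  exact ⟨h.1, h.2.1, h.2.2.2.2⟩

lemma emb_add (a b : F) {d : ℕ} (s t s' t' : F) (x x' : Fin d → F) :
    emb a b s t x + emb a b s' t' x' = emb a b (s + s') (t + t') (x + x') := by
  unfold emb
  simp only [cons_add_cons]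
  congr 3
  · ring
  · congr 1
    ring

lemma emb_smul (a b : F) {d : ℕ} (c s t : F) (x : Fin d → F) :
    c • emb a b s t x = emb a b (c * s) (c * t) (c • x) := by
  unfold emb
  simp only [smul_cons, smul_eq_mul]
  congr 3
  · ring
  · congr 1
    ring

lemma emb_zero (a b : F) {d : ℕ} : emb a b 0 0 (0 : Fin d → F) = 0 := by
  unfold emb
  ext k
  refine Fin.cases ?_ (fun k => ?_) k
  · simp
  refine Fin.cases ?_ (fun k => ?_) k
  · simp
  refine Fin.cases ?_ (fun k => ?_) k
  · simp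
  refine Fin.cases ?_ (fun k => ?_) k
  · simp
  · simp

lemma good_step (hF : ringChar F ≠ 2) {j : F} {d i : ℕ} (hdi : i + 1 ≤ d)
    (h : Good d i j) : Good (d + 4) (i + 2) j := by
  obtain ⟨a, b, hab⟩ := exists_sq_add_sq hF (-1)
  obtain ⟨U, hU, hUc, hUi, hT⟩ := h
  set E : F × F × (Fin d → F) → (Fin (d + 4) → F) := fun p => emb a b p.1 p.2.1 p.2.2 with hE
  have hEinj : Function.Injective E := by
    rintro ⟨s, t, x⟩ ⟨s', t', x'⟩ h
    obtain ⟨h1, h2, h3⟩ := emb_inj h
    subst h1 h2 h3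
    rfl
  set U' := ((univ : Finset F) ×ˢ ((univ : Finset F) ×ˢ U)).image E with hU'
  have memU' : ∀ y, y ∈ U' ↔ ∃ s t : F, ∃ u ∈ U, emb a b s t u = y := by
    intro y
    simp only [hU', Finset.mem_image, Finset.mem_product, Finset.mem_univ, true_and, hE]
    constructor
    · rintro ⟨⟨s, t, u⟩, hu, rfl⟩
      exact ⟨s, t, u, hu, rfl⟩
    · rintro ⟨s, t, u, hu, rfl⟩
      exact ⟨⟨s, t, u⟩, hu, rfl⟩
  refine ⟨U', ⟨?_, ?_, ?_⟩, ?_, ?_, ?_⟩
  · rw [memU']
    exact ⟨0, 0, 0, hU.zero, emb_zero a b⟩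
  · intro x hx y hy
    rw [memU'] at hx hy ⊢
    obtain ⟨s, t, u, hu, rfl⟩ := hx
    obtain ⟨s', t', u', hu', rfl⟩ := hy
    exact ⟨s + s', t + t', u + u', hU.add u hu u' hu', (emb_add _ _ _ _ _ _ _ _).symm⟩
  · intro c x hx
    rw [memU'] at hx ⊢
    obtain ⟨s, t, u, hu, rfl⟩ := hx
    exact ⟨c * s, c * t, c • u, hU.smul c u hu, (emb_smul _ _ _ _ _ _).symm⟩
  · rw [hU', Finset.card_image_of_injective _ hEinj, Finset.card_product, Finset.card_product,
      Finset.card_univ, hUc]
    ring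
  · intro x hx y hy
    rw [memU'] at hx hy
    obtain ⟨s, t, u, hu, rfl⟩ := hx
    obtain ⟨s', t', u', hu', rfl⟩ := hy
    rw [emb_dot hab]
    exact hUi u hu u' hu'
  · have h1 : Fintype.card F ^ 2 * #(sphere d j ∩ perp U) ≤ #(sphere (d + 4) j ∩ perp U') := by
      have h2 : #(((univ : Finset F) ×ˢ ((univ : Finset F) ×ˢ (sphere d j ∩ perp U))).image E)
          = Fintype.card F ^ 2 * #(sphere d j ∩ perp U) := by
        rw [Finset.card_image_of_injective _ hEinj, Finset.card_product, Finset.card_product,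
          Finset.card_univ]
        ring
      rw [← h2]
      apply Finset.card_le_card
      intro y hy
      simp only [Finset.mem_image, Finset.mem_product, Finset.mem_univ, true_and, hE,
        Finset.mem_inter, mem_sphere, mem_perp] at hy ⊢
      obtain ⟨⟨s, t, x⟩, ⟨hx1, hx2⟩, rfl⟩ := hy
      refine ⟨by rw [emb_dot hab]; exact hx1, ?_⟩
      intro y hy
      rw [memU'] at hy
      obtain ⟨s', t', u', hu', rfl⟩ := hy
      rw [emb_dot hab]
      exact hx2 u' hu'
    rw [show d + 4 - (i + 2) - 1 = (d - i - 1) + 2 by omega, pow_add]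
    calc 2 * (Fintype.card F ^ (d - i - 1) * Fintype.card F ^ 2)
        = Fintype.card F ^ 2 * (2 * Fintype.card F ^ (d - i - 1)) := by ring
      _ ≤ Fintype.card F ^ 2 * (9 * #(sphere d j ∩ perp U)) := Nat.mul_le_mul_left _ hT
      _ = 9 * (Fintype.card F ^ 2 * #(sphere d j ∩ perp U)) := by ring
      _ ≤ 9 * #(sphere (d + 4) j ∩ perp U') := Nat.mul_le_mul_left _ h1

lemma good_one (hF : ringChar F ≠ 2) {j : F} (m : ℕ) : Good (m + 4) 1 j := by
  obtain ⟨a, b, hab⟩ := exists_sq_add_sq hF (-1)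
  have h2 : (2 : F) ≠ 0 := by
    exact Ring.two_ne_zero hF
  set U : Finset (Fin (m + 4) → F) := (univ : Finset F).image (fun s => emb a b s 0 0) with hU
  have memU : ∀ y, y ∈ U ↔ ∃ s : F, emb a b s 0 0 = y := by
    intro y
    simp [hU]
  refine ⟨U, ⟨?_, ?_, ?_⟩, ?_, ?_, ?_⟩
  · rw [memU]
    exact ⟨0, emb_zero a b⟩
  · intro x hx y hy
    rw [memU] at hx hy ⊢
    obtain ⟨s, rfl⟩ := hx
    obtain ⟨s', rfl⟩ := hy
    refine ⟨s + s', ?_⟩
    rw [emb_add]
    simp
  · intro c x hx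
    rw [memU] at hx ⊢
    obtain ⟨s, rfl⟩ := hx
    refine ⟨c * s, ?_⟩
    rw [emb_smul]
    simp
  · rw [hU, Finset.card_image_of_injective, Finset.card_univ, pow_one]
    intro s s' h
    exact (emb_inj h).1
  · intro x hx y hy
    rw [memU] at hx hy
    obtain ⟨s, rfl⟩ := hx
    obtain ⟨s', rfl⟩ := hy
    rw [emb_dot hab]
    simp
  · set q := Fintype.card F with hq
    have hq3 : 3 ≤ q := three_le_card hF
    -- the parametrised points
    set P : F × F × (Fin m → F) → (Fin (m + 4) → F) := fun p =>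
      emb a b p.1 ((p.2.2 ⬝ᵥ p.2.2 - j) / (4 * p.2.1)) p.2.2
        + p.2.1 • (vecCons 0 (vecCons (-1) (vecCons (-b) (vecCons a (0 : Fin m → F))))) with hP
    have hPe : ∀ α γ : F, ∀ z : Fin m → F, P (α, γ, z) =
        vecCons α (vecCons ((z ⬝ᵥ z - j) / (4 * γ) - γ)
          (vecCons (α * a - ((z ⬝ᵥ z - j) / (4 * γ)) * b - γ * b)
          (vecCons (α * b + ((z ⬝ᵥ z - j) / (4 * γ)) * a + γ * a) z))) := by
      intro α γ z
      simp only [hP, emb, smul_cons, cons_add_cons, smul_eq_mul, smul_zero, add_zero]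
      congr 1
      · ring
      congr 1
      · ring
      congr 1
      · ring
    have h4 : (4 : F) ≠ 0 := by
      have : (4 : F) = 2 * 2 := by norm_num
      rw [this]
      exact mul_ne_zero h2 h2
    have hinj : Set.InjOn P
        ↑((univ : Finset F) ×ˢ ((univ.erase (0 : F)) ×ˢ (univ : Finset (Fin m → F)))) := by
      rintro ⟨α, γ, z⟩ _ ⟨α', γ', z'⟩ _ h
      rw [hPe, hPe] at h
      simp only [vecCons_inj] at h
      obtain ⟨e1, e2, e3, e4, e5⟩ := h
      subst e1 e5
      set β := (z ⬝ᵥ z - j) / (4 * γ)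
      set β' := (z ⬝ᵥ z - j) / (4 * γ')
      have f1 : β + γ = β' + γ' := by
        linear_combination -a * e4 + b * e3 + ((β + γ) - (β' + γ')) * hab
      have f2 : 2 * (γ - γ') = 0 := by linear_combination f1 - e2
      have f3 := (mul_eq_zero.mp f2).resolve_left h2
      rw [sub_eq_zero.mp f3]
    have hmaps : ∀ p ∈ (univ : Finset F) ×ˢ ((univ.erase (0 : F)) ×ˢ (univ : Finset (Fin m → F))),
        P p ∈ sphere (m + 4) j ∩ perp U := by
      rintro ⟨α, γ, z⟩ hp
      have hγ : γ ≠ 0 := by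
        simp only [Finset.mem_product, Finset.mem_erase, Finset.mem_univ, true_and, and_true] at hp
        exact hp
      rw [Finset.mem_inter, mem_sphere, mem_perp, hPe]
      constructor
      · simp only [cons_dotProduct_cons]
        set β := (z ⬝ᵥ z - j) / (4 * γ) with hβ
        have hβ' : 4 * β * γ = z ⬝ᵥ z - j := by
          rw [hβ]; field_simp
        linear_combination (α ^ 2 + (β + γ) ^ 2) * hab - hβ'
      · intro u hu
        rw [memU] at hu
        obtain ⟨s, rfl⟩ := hu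
        unfold emb
        simp only [cons_dotProduct_cons, dotProduct_zero]
        linear_combination (α * s) * hab
    have hcard := Finset.card_le_card_of_injOn P (fun p hp => hmaps p hp) hinj
    rw [Finset.card_product, Finset.card_product, Finset.card_erase_of_mem (Finset.mem_univ _),
      Finset.card_univ, Finset.card_univ, Fintype.card_pi] at hcard
    simp only [Finset.prod_const, Finset.card_univ, Fintype.card_fin] at hcard
    rw [← hq] at hcard
    rw [show m + 4 - 1 - 1 = m + 2 by omega]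
    obtain ⟨t, ht⟩ : ∃ t, q = t + 3 := ⟨q - 3, by omega⟩
    rw [ht] at hcard ⊢
    simp only [show t + 3 - 1 = t + 2 by omega] at hcard
    calc 2 * (t + 3) ^ (m + 2) = (2 * (t + 3)) * ((t + 3) * (t + 3) ^ m) := by ring
      _ ≤ (9 * (t + 2)) * ((t + 3) * (t + 3) ^ m) := Nat.mul_le_mul_right _ (by omega)
      _ = 9 * ((t + 3) * ((t + 2) * (t + 3) ^ m)) := by ring
      _ ≤ 9 * #(sphere (m + 4) j ∩ perp U) := Nat.mul_le_mul_left _ hcard

theorem good_all (hF : ringChar F ≠ 2) {j : F} (hj : j ≠ 0) :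
    ∀ (i d : ℕ), 2 * i + 2 ≤ d → Good d i j
  | 0, d, h => good_zero hF hj (by omega)
  | 1, d, h => by
      obtain ⟨m, rfl⟩ : ∃ m, d = m + 4 := ⟨d - 4, by omega⟩
      exact good_one hF m
  | i + 2, d, h => by
      obtain ⟨m, rfl⟩ : ∃ m, d = m + 4 := ⟨d - 4, by omega⟩
      exact good_step hF (by omega) (good_all hF hj i m (by omega))

end Pool.Agent.Helper18.SphereRes
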