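import Pool.Agent.Helper18.SphereRes.Lower

set_option autoImplicit false

open Finset Filter
open scoped ENNReal

namespace Pool.Agent.Helper18.SphereRes

/-- The restriction constants tend to infinity with `q`, uniformly in `F`, `χ` and `j`. -/
def Diverges (d : ℕ) (p r : ℝ≥0∞) : Prop :=
  ∀ C : ℝ, ∃ Q : ℕ, ∀ (F : Type) [Field F] [Fintype F] [DecidableEq F], Q ≤ Fintype.card F →
    ringChar F ≠ 2 → ∀ χ : AddChar F ℂ, χ ≠ 1 → ∀ j : F, j ≠ 0 →
      ENNReal.ofReal C < restrConst χ d j p r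

lemma diverges {d i : ℕ} (hdi : 2 * i + 2 ≤ d) {p r : ℝ≥0∞} (hp1 : 1 ≤ p) (hp2 : p ≤ 2)
    (hr1 : 1 ≤ r) (hr2 : r ≤ 2)
    (h : ((d : ℝ) - i) * (p⁻¹).toReal + i * (r⁻¹).toReal < ((d : ℝ) + 1) / 2) :
    Diverges d p r := by
  intro C
  set e : ℝ := ((d : ℝ) + 1) / 2 - i * (r⁻¹).toReal - (d - i) * (p⁻¹).toReal with he
  have hepos : 0 < e := by rw [he]; linarith
  have ht : Tendsto (fun n : ℕ => 1 / 5 * (n : ℝ) ^ e) atTop atTop := by
    apply Tendsto.const_mul_atTop (by norm_num)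
    exact (tendsto_rpow_atTop hepos).comp tendsto_natCast_atTop_atTop
  obtain ⟨Q, hQ⟩ := ((ht.eventually_gt_atTop C).and
    (ht.eventually_gt_atTop 0)).exists_forall_of_atTop
  refine ⟨Q, fun F _ _ _ hcard hF χ hχ j hj => ?_⟩
  refine lt_of_lt_of_le ?_ (le_restrConst hF hχ hj hdi hp1 hp2 hr1 hr2)
  have h1 := hQ (Fintype.card F) hcard
  exact (ENNReal.ofReal_lt_ofReal_iff h1.2).mpr h1.1

lemma exists_nonsquare_ne_zero {F : Type} [Field F] [Fintype F] [DecidableEq F]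
    (hF : ringChar F ≠ 2) : ∃ j : F, j ≠ 0 ∧ quadraticChar F j = -1 := by
  obtain ⟨a, ha⟩ := FiniteField.exists_nonsquare hF
  have ha0 : a ≠ 0 := by
    rintro rfl
    exact ha ⟨0, by simp⟩
  exact ⟨a, ha0, (quadraticChar_neg_one_iff_not_isSquare).mpr ha⟩

/-- Every admissible case occurs in every finite field of odd order. -/
lemma exists_case {F : Type} [Field F] [Fintype F] [DecidableEq F] (hF : ringChar F ≠ 2)
    {c : Case} {d : ℕ}
    (hc : (c = Case.one ∧ Even d) ∨ (c = Case.two ∧ d % 4 = 1) ∨ (c = Case.four ∧ d % 4 = 3)) :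
    ∃ j : F, j ≠ 0 ∧ c.Holds d j := by
  rcases hc with ⟨rfl, h⟩ | ⟨rfl, h⟩ | ⟨rfl, h⟩
  · exact ⟨1, one_ne_zero, h⟩
  · obtain ⟨j, hj0, hj⟩ := exists_nonsquare_ne_zero hF
    exact ⟨j, hj0, h, hj⟩
  · obtain ⟨j, hj0, hj⟩ := exists_nonsquare_ne_zero hF
    refine ⟨-j, neg_ne_zero.mpr hj0, h, ?_⟩
    rwa [neg_neg]

lemma not_uniformlyBounded {c : Case} {d : ℕ}
    (hc : (c = Case.one ∧ Even d) ∨ (c = Case.two ∧ d % 4 = 1) ∨ (c = Case.four ∧ d % 4 = 3))
    {p r : ℝ≥0∞} (h : Diverges d p r) : ¬ UniformlyBounded c d p r := by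
  rintro ⟨C, hC⟩
  obtain ⟨Q, hQ⟩ := h C
  obtain ⟨ℓ, hℓ, hprime⟩ := Nat.exists_infinite_primes (max Q 3)
  have : Fact ℓ.Prime := ⟨hprime⟩
  have hℓ3 : 3 ≤ ℓ := le_trans (le_max_right _ _) hℓ
  have hchar : ringChar (ZMod ℓ) ≠ 2 := by
    rw [ZMod.ringChar_zmod_n]; omega
  obtain ⟨j, hj0, hj⟩ := exists_case (F := ZMod ℓ) hchar hc
  have hχ : (ZMod.stdAddChar (N := ℓ)) ≠ 1 := by
    have := ZMod.isPrimitive_stdAddChar ℓ
    intro h1
    have h2 := this (a := 1) one_ne_zero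
    rw [h1] at h2
    apply h2
    ext x
    simp
  have h1 := hC (ZMod ℓ) hchar _ hχ j hj0 hj
  have h2 := hQ (ZMod ℓ) (by rw [ZMod.card]; exact le_trans (le_max_left _ _) hℓ) hchar _ hχ j hj0
  exact absurd h1 (not_lt.mpr h1 |> fun _ => not_le.mpr h2)

/-- A linear inequality valid at the four vertices is valid on `Ω_d(y)`. -/
lemma omega_linear {d : ℕ} {y : ℝ} {α β γ : ℝ} {z : ℝ × ℝ} (hz : z ∈ Omega d y)
    (h1 : γ ≤ α * 1 + β * 0) (h2 : γ ≤ α * 1 + β * 1)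
    (h3 : γ ≤ α * (((d : ℝ) + 1) / (2 * d)) + β * 1)
    (h4 : γ ≤ α * (((d : ℝ) + 1) / (2 * d)) + β * y) : γ ≤ α * z.1 + β * z.2 := by
  have hconv : Convex ℝ {w : ℝ × ℝ | γ ≤ α * w.1 + β * w.2} := by
    intro u hu v hv s t hs ht hst
    simp only [Set.mem_ofPred_eq, Prod.fst_add, Prod.smul_fst, smul_eq_mul, Prod.snd_add,
      Prod.smul_snd] at hu hv ⊢
    calc γ = s * γ + t * γ := by rw [← add_mul, hst, one_mul]
      _ ≤ s * (α * u.1 + β * u.2) + t * (α * v.1 + β * v.2) :=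
        add_le_add (mul_le_mul_of_nonneg_left hu hs) (mul_le_mul_of_nonneg_left hv ht)
      _ = _ := by ring
  have hsub : Omega d y ⊆ {w : ℝ × ℝ | γ ≤ α * w.1 + β * w.2} := by
    apply convexHull_min _ hconv
    intro w hw
    simp only [Set.mem_insert_iff, Set.mem_singleton_iff] at hw
    rcases hw with rfl | rfl | rfl | rfl
    · exact h1
    · exact h2
    · exact h3
    · exact h4
  exact hsub hz

lemma inv_toReal_half_le {p : ℝ≥0∞} (h : 1 / 2 ≤ (p⁻¹).toReal) : p ≤ 2 := by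
  rw [← ENNReal.inv_le_inv]
  have hp : p⁻¹ ≠ ∞ := by
    intro h0
    rw [h0] at h
    norm_num at h
  rw [← ENNReal.toReal_le_toReal (by norm_num) hp]
  simpa using h

/-- The new necessary condition, `i = (d-2)/2` or `i = (d-3)/2`. -/
lemma necessary {c : Case} {d i : ℕ}
    (hc : (c = Case.one ∧ Even d) ∨ (c = Case.two ∧ d % 4 = 1) ∨ (c = Case.four ∧ d % 4 = 3))
    {p r : ℝ≥0∞} (hp1 : 1 ≤ p) (hr1 : 1 ≤ r) (hd : 4 ≤ d)
    (hi : (c = Case.one ∧ d = 2 * i + 2) ∨ (c ≠ Case.one ∧ d = 2 * i + 3))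
    (hΩ : ((p⁻¹).toReal, (r⁻¹).toReal) ∈ Omega d (c.y0 d)) (hb : UniformlyBounded c d p r) :
    ((d : ℝ) + 1) / 2 ≤ ((d : ℝ) - i) * (p⁻¹).toReal + i * (r⁻¹).toReal := by
  by_contra hlt
  push Not at hlt
  have hd' : (4 : ℝ) ≤ d := by exact_mod_cast hd
  have hd0 : (0 : ℝ) < d := by linarith
  have ha0 : ((d : ℝ) + 1) / (2 * d) ≤ 1 := by rw [div_le_one (by linarith)]; linarith
  have ha0' : (1 : ℝ) / 2 ≤ ((d : ℝ) + 1) / (2 * d) := by
    rw [div_le_div_iff₀ (by norm_num) (by linarith)]; linarith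
  have hpa : (1 : ℝ) / 2 ≤ (p⁻¹).toReal := by
    have := omega_linear (α := 1) (β := 0) (γ := 1 / 2) hΩ (by norm_num) (by norm_num)
      (by linarith) (by linarith)
    simpa using this
  -- the known (Mockenhaupt-Tao) edge
  have hedge : ((d : ℝ) - i) ≤ (d - i) * (p⁻¹).toReal + (d - 1 - i) * (r⁻¹).toReal := by
    rcases hi with ⟨rfl, hi⟩ | ⟨hc1, hi⟩
    · have hi' : (d : ℝ) = 2 * i + 2 := by exact_mod_cast hi
      have hipos : (0 : ℝ) ≤ i := by positivity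
      have := omega_linear (α := (d : ℝ) - i) (β := d - 1 - i) (γ := d - i) hΩ (by linarith)
        (by linarith) (by
          rw [hi']
          rw [show ((2 : ℝ) * i + 2 - i) * ((2 * i + 2 + 1) / (2 * (2 * i + 2)))
            = (i + 2) * (2 * i + 3) / (2 * (2 * i + 2)) by ring]
          rw [← sub_nonneg]
          have : (i + 2) * (2 * (i : ℝ) + 3) / (2 * (2 * i + 2)) + (2 * i + 2 - 1 - i) * 1
              - (2 * i + 2 - i) = (i + 2) / (2 * (2 * i + 2)) * (2 * i + 3) - 1 := by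
            field_simp
            ring
          rw [this]
          have h5 : (i + 2 : ℝ) / (2 * (2 * i + 2)) * (2 * i + 3) - 1
              = (2 * i ^ 2 + 3 * i + 2) / (2 * (2 * i + 2)) := by
            field_simp
            ring
          rw [h5]
          positivity) (by
          rw [Case.y0, hi']
          apply le_of_eq
          field_simp
          ring)
      exact this
    · have hy : c.y0 d = ((d : ℝ) ^ 2 + 2 * d - 3) / (2 * (d : ℝ) ^ 2 + 2 * d) := by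
        rcases hc with ⟨rfl, _⟩ | ⟨rfl, _⟩ | ⟨rfl, _⟩
        · exact absurd rfl hc1
        · rfl
        · rfl
      have hi' : (d : ℝ) = 2 * i + 3 := by exact_mod_cast hi
      have hipos : (0 : ℝ) ≤ i := by positivity
      have := omega_linear (α := (d : ℝ) - i) (β := d - 1 - i) (γ := d - i) hΩ (by linarith)
        (by linarith) (by
          rw [hi']
          rw [← sub_nonneg]
          have h5 : (2 * (i : ℝ) + 3 - i) * ((2 * i + 3 + 1) / (2 * (2 * i + 3)))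
              + (2 * i + 3 - 1 - i) * 1 - (2 * i + 3 - i)
              = (2 * i ^ 2 + 6 * i + 6) / (2 * (2 * i + 3)) := by
            field_simp
            ring
          rw [h5]
          positivity) (by
          rw [hy, hi']
          apply le_of_eq
          field_simp
          ring)
      exact this
  have hrb : (1 : ℝ) / 2 ≤ (r⁻¹).toReal := by
    by_contra hr
    push Not at hr
    rcases hi with ⟨rfl, hi⟩ | ⟨hc1, hi⟩
    · have hi' : (d : ℝ) = 2 * i + 2 := by exact_mod_cast hi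
      rw [hi'] at hlt hedge
      nlinarith
    · have hi' : (d : ℝ) = 2 * i + 3 := by exact_mod_cast hi
      rw [hi'] at hlt hedge
      nlinarith
  have hdi : 2 * i + 2 ≤ d := by rcases hi with ⟨_, hi⟩ | ⟨_, hi⟩ <;> omega
  exact not_uniformlyBounded hc (diverges hdi hp1 (inv_toReal_half_le hpa) hr1
    (inv_toReal_half_le hrb) hlt) hb

/-- The vertex `((d+1)/(2d), y_0)` of the conjectured region. -/
lemma vertex {c : Case} {d : ℕ} (hd : 4 ≤ d)
    (hc : (c = Case.one ∧ Even d) ∨ (c = Case.two ∧ d % 4 = 1) ∨ (c = Case.four ∧ d % 4 = 3)) :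
    ∃ p r : ℝ≥0∞, 1 ≤ p ∧ 1 ≤ r ∧ (p⁻¹).toReal = ((d : ℝ) + 1) / (2 * d) ∧
      (r⁻¹).toReal = c.y0 d ∧ ((p⁻¹).toReal, (r⁻¹).toReal) ∈ Omega d (c.y0 d) ∧
      Diverges d p r := by
  have hd' : (4 : ℝ) ≤ d := by exact_mod_cast hd
  have hd0 : (0 : ℝ) < d := by linarith
  set a : ℝ := ((d : ℝ) + 1) / (2 * d) with ha
  set b : ℝ := c.y0 d with hb
  have ha1 : a ≤ 1 := by rw [ha, div_le_one (by linarith)]; linarith
  have ha2 : 1 / 2 ≤ a := by rw [ha, div_le_div_iff₀ (by norm_num) (by linarith)]; linarith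
  have hb2 : 1 / 2 ≤ b := by
    rcases hc with ⟨rfl, _⟩ | ⟨rfl, _⟩ | ⟨rfl, _⟩
    · rw [hb, Case.y0, div_le_div_iff₀ (by norm_num) (by positivity)]; nlinarith
    · rw [hb, Case.y0, div_le_div_iff₀ (by norm_num) (by positivity)]; nlinarith
    · rw [hb, Case.y0, div_le_div_iff₀ (by norm_num) (by positivity)]; nlinarith
  have hba : b < a := by
    rcases hc with ⟨rfl, _⟩ | ⟨rfl, _⟩ | ⟨rfl, _⟩
    · rw [hb, ha, Case.y0, div_lt_div_iff₀ (by positivity) (by positivity)]; nlinarith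
    · rw [hb, ha, Case.y0, div_lt_div_iff₀ (by positivity) (by positivity)]; nlinarith
    · rw [hb, ha, Case.y0, div_lt_div_iff₀ (by positivity) (by positivity)]; nlinarith
  have hb1 : b ≤ 1 := hba.le.trans ha1
  have key : ∀ t : ℝ, 1 / 2 ≤ t → t ≤ 1 → 1 ≤ (ENNReal.ofReal t)⁻¹ ∧ (ENNReal.ofReal t)⁻¹ ≤ 2 ∧
      (((ENNReal.ofReal t)⁻¹)⁻¹).toReal = t := by
    intro t h1 h2
    refine ⟨?_, ?_, ?_⟩
    · rw [ENNReal.one_le_inv]
      exact ENNReal.ofReal_le_one.mpr h2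
    · rw [← ENNReal.inv_le_inv, inv_inv]
      rw [show (2 : ℝ≥0∞)⁻¹ = ENNReal.ofReal (1 / 2) by
        rw [one_div, ENNReal.ofReal_inv_of_pos (by norm_num)]; norm_num]
      exact ENNReal.ofReal_le_ofReal h1
    · rw [inv_inv, ENNReal.toReal_ofReal (by linarith)]
  obtain ⟨p1, p2, p3⟩ := key a ha2 ha1
  obtain ⟨r1, r2, r3⟩ := key b hb2 hb1
  refine ⟨(ENNReal.ofReal a)⁻¹, (ENNReal.ofReal b)⁻¹, p1, r1, p3, r3, ?_, ?_⟩
  · rw [p3, r3]
    apply subset_convexHull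
    simp [ha, hb]
  · apply diverges (i := 1) (by omega) p1 p2 r1 r2
    rw [p3, r3]
    have : (d : ℝ) * a = (d + 1) / 2 := by rw [ha]; field_simp
    push_cast
    nlinarith

end Pool.Agent.Helper18.SphereRes
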