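import Pool.Agent.Helper18.SphereRes.Defs

set_option autoImplicit false

open Finset
open scoped ENNReal

namespace Pool.Agent.Helper18.SphereRes

variable {F : Type} [Field F] [Fintype F] [DecidableEq F] {d : ℕ}

/-- The additive character `m ↦ χ (m ⬝ᵥ v)` of `F^d`. -/
noncomputable def chi (χ : AddChar F ℂ) (v : Fin d → F) : AddChar (Fin d → F) ℂ where
  toFun m := χ (m ⬝ᵥ v)
  map_zero_eq_one' := by simp
  map_add_eq_mul' m n := by rw [add_dotProduct, AddChar.map_add_eq_mul]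

lemma chi_apply (χ : AddChar F ℂ) (v m : Fin d → F) : chi χ v m = χ (m ⬝ᵥ v) := rfl

lemma exists_smul_ne {χ : AddChar F ℂ} (hχ : χ ≠ 1) {t : F} (ht : t ≠ 0) :
    ∃ c : F, χ (c * t) ≠ 1 := by
  obtain ⟨x, hx⟩ := AddChar.ne_one_iff.mp hχ
  exact ⟨x / t, by rwa [div_mul_cancel₀ _ ht]⟩

lemma chi_ne_zero {χ : AddChar F ℂ} (hχ : χ ≠ 1) {v : Fin d → F} (hv : v ≠ 0) :
    chi χ v ≠ 0 := by
  rw [AddChar.ne_zero_iff]
  obtain ⟨k, hk⟩ := Function.ne_iff.mp hv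
  obtain ⟨c, hc⟩ := exists_smul_ne hχ (show v k ≠ 0 from hk)
  refine ⟨Pi.single k c, ?_⟩
  rw [chi_apply, single_dotProduct]
  exact hc

lemma sum_chi {χ : AddChar F ℂ} (hχ : χ ≠ 1) (v : Fin d → F) :
    ∑ m : Fin d → F, χ (m ⬝ᵥ v) = if v = 0 then ((Fintype.card F : ℂ)) ^ d else 0 := by
  split_ifs with h
  · subst h
    simp [Fintype.card_pi]
  · have := (AddChar.sum_eq_zero_iff_ne_zero (ψ := chi χ v)).mpr (chi_ne_zero hχ h)
    simpa [chi_apply] using this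

/-- The test function `g(m) = ∑_{y ∈ T} χ(m·y)`. -/
noncomputable def gfun (χ : AddChar F ℂ) (T : Finset (Fin d → F)) (m : Fin d → F) : ℂ :=
  ∑ y ∈ T, χ (m ⬝ᵥ y)

lemma fourier_gfun {χ : AddChar F ℂ} (hχ : χ ≠ 1) (T : Finset (Fin d → F)) (x : Fin d → F) :
    fourier χ (gfun χ T) x = if x ∈ T then ((Fintype.card F : ℂ)) ^ d else 0 := by
  unfold fourier gfun
  simp_rw [Finset.mul_sum]
  rw [Finset.sum_comm]
  have : ∀ y ∈ T, ∑ m : Fin d → F, χ (-(m ⬝ᵥ x)) * χ (m ⬝ᵥ y)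
      = if y = x then ((Fintype.card F : ℂ)) ^ d else 0 := by
    intro y _
    rw [show (if y = x then ((Fintype.card F : ℂ)) ^ d else 0)
      = if y - x = 0 then ((Fintype.card F : ℂ)) ^ d else 0 by simp [sub_eq_zero]]
    rw [← sum_chi hχ (y - x)]
    refine Finset.sum_congr rfl fun m _ => ?_
    rw [← AddChar.map_add_eq_mul, dotProduct_sub]
    congr 1
    ring
  rw [Finset.sum_congr rfl this]
  simp

lemma norm_chi (χ : AddChar F ℂ) (t : F) : ‖χ t‖ = 1 := by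
  exact AddChar.norm_apply χ t

lemma conj_chi (χ : AddChar F ℂ) (t : F) : (starRingEnd ℂ) (χ t) = χ (-t) := by
  rw [AddChar.map_neg_eq_inv]
  rw [Complex.inv_def, Complex.normSq_eq_norm_sq, norm_chi]
  simp

lemma sum_norm_sq {χ : AddChar F ℂ} (hχ : χ ≠ 1) (T : Finset (Fin d → F)) :
    ∑ m : Fin d → F, ‖gfun χ T m‖ ^ 2 = (Fintype.card F : ℝ) ^ d * #T := by
  have key : ∑ m : Fin d → F, gfun χ T m * (starRingEnd ℂ) (gfun χ T m)
      = (Fintype.card F : ℂ) ^ d * #T := by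
    calc ∑ m : Fin d → F, gfun χ T m * (starRingEnd ℂ) (gfun χ T m)
        = ∑ m : Fin d → F, ∑ y ∈ T, χ (-(m ⬝ᵥ y)) * gfun χ T m := by
          refine Finset.sum_congr rfl fun m _ => ?_
          rw [show (starRingEnd ℂ) (gfun χ T m) = ∑ y ∈ T, χ (-(m ⬝ᵥ y)) by
            unfold gfun
            rw [map_sum]
            exact Finset.sum_congr rfl fun y _ => conj_chi χ _]
          rw [mul_comm, Finset.sum_mul]
      _ = ∑ y ∈ T, fourier χ (gfun χ T) y := by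
          rw [Finset.sum_comm]; rfl
      _ = ∑ y ∈ T, (Fintype.card F : ℂ) ^ d := by
          refine Finset.sum_congr rfl fun y hy => ?_
          rw [fourier_gfun hχ, if_pos hy]
      _ = (Fintype.card F : ℂ) ^ d * #T := by
          rw [Finset.sum_const, nsmul_eq_mul, mul_comm]
  have h2 : ((∑ m : Fin d → F, ‖gfun χ T m‖ ^ 2 : ℝ) : ℂ)
      = (((Fintype.card F : ℝ) ^ d * #T : ℝ) : ℂ) := by
    push_cast
    rw [← key]
    refine Finset.sum_congr rfl fun m _ => ?_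
    rw [Complex.mul_conj, Complex.normSq_eq_norm_sq]
    push_cast
    rfl
  exact_mod_cast h2

lemma sum_shift_eq_zero {χ : AddChar F ℂ} {T : Finset (Fin d → F)} {u m : Fin d → F}
    (hT : ∀ y ∈ T, y + u ∈ T) (hu : χ (m ⬝ᵥ u) ≠ 1) : ∑ y ∈ T, χ (m ⬝ᵥ y) = 0 := by
  have h1 : T.map (addRightEmbedding u) = T := by
    apply Finset.eq_of_subset_of_card_le
    · intro y hy
      rw [Finset.mem_map] at hy
      obtain ⟨z, hz, rfl⟩ := hy
      exact hT z hz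
    · simp
  have h2 : ∑ y ∈ T, χ (m ⬝ᵥ y) = (∑ y ∈ T, χ (m ⬝ᵥ y)) * χ (m ⬝ᵥ u) := by
    conv_lhs => rw [← h1]
    rw [Finset.sum_map, Finset.sum_mul]
    refine Finset.sum_congr rfl fun y _ => ?_
    rw [← AddChar.map_add_eq_mul, ← dotProduct_add]
    rfl
  have h3 : (∑ y ∈ T, χ (m ⬝ᵥ y)) * (1 - χ (m ⬝ᵥ u)) = 0 := by
    rw [mul_sub, mul_one, ← h2, sub_self]
  rcases mul_eq_zero.mp h3 with h | h
  · exact h
  · exact absurd (sub_eq_zero.mp h).symm hu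

/-- A finite set which is (the carrier of) a linear subspace. -/
structure IsSub (U : Finset (Fin d → F)) : Prop where
  zero : (0 : Fin d → F) ∈ U
  add : ∀ u ∈ U, ∀ v ∈ U, u + v ∈ U
  smul : ∀ c : F, ∀ u ∈ U, c • u ∈ U

/-- The orthogonal complement. -/
def perp (U : Finset (Fin d → F)) : Finset (Fin d → F) :=
  univ.filter fun m => ∀ u ∈ U, m ⬝ᵥ u = 0

lemma exists_of_not_perp {χ : AddChar F ℂ} (hχ : χ ≠ 1) {U : Finset (Fin d → F)} (hU : IsSub U)
    {m : Fin d → F} (hm : m ∉ perp U) : ∃ u ∈ U, χ (m ⬝ᵥ u) ≠ 1 := by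
  simp only [perp, Finset.mem_filter, Finset.mem_univ, true_and, not_forall] at hm
  obtain ⟨u, hu, hmu⟩ := hm
  obtain ⟨c, hc⟩ := exists_smul_ne hχ hmu
  exact ⟨c • u, hU.smul c u hu, by rwa [dotProduct_smul, smul_eq_mul]⟩

lemma card_perp {χ : AddChar F ℂ} (hχ : χ ≠ 1) {U : Finset (Fin d → F)} (hU : IsSub U) :
    #(perp U) * #U = Fintype.card F ^ d := by
  have h1 : ∑ m : Fin d → F, ∑ u ∈ U, χ (m ⬝ᵥ u) = (#(perp U) : ℂ) * #U := by
    rw [← Finset.sum_filter_add_sum_filter_not univ (fun m : Fin d → F => m ∈ perp U)]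
    have e1 : ∑ m ∈ univ.filter (fun m : Fin d → F => m ∈ perp U), ∑ u ∈ U, χ (m ⬝ᵥ u)
        = ∑ m ∈ univ.filter (fun m : Fin d → F => m ∈ perp U), (#U : ℂ) := by
      refine Finset.sum_congr rfl fun m hm => ?_
      have hm' : ∀ u ∈ U, m ⬝ᵥ u = 0 := by
        simpa [perp] using hm
      rw [Finset.sum_congr rfl (fun u hu => by rw [hm' u hu, AddChar.map_zero_eq_one])]
      simp
    have e2 : ∑ m ∈ univ.filter (fun m : Fin d → F => ¬ m ∈ perp U), ∑ u ∈ U, χ (m ⬝ᵥ u)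
        = 0 := by
      refine Finset.sum_eq_zero fun m hm => ?_
      obtain ⟨u, hu, hne⟩ := exists_of_not_perp hχ hU (Finset.mem_filter.mp hm).2
      exact sum_shift_eq_zero (fun y hy => hU.add y hy u hu) hne
    rw [e1, e2, add_zero, Finset.sum_const, nsmul_eq_mul]
    congr 3
    ext m
    simp
  have h2 : ∑ m : Fin d → F, ∑ u ∈ U, χ (m ⬝ᵥ u) = (Fintype.card F : ℂ) ^ d := by
    rw [Finset.sum_comm, Finset.sum_congr rfl (fun u _ => sum_chi hχ u)]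
    rw [Finset.sum_ite_eq' U 0, if_pos hU.zero]
  have h3 : ((#(perp U) * #U : ℕ) : ℂ) = ((Fintype.card F ^ d : ℕ) : ℂ) := by
    push_cast
    rw [← h1, h2]
  exact_mod_cast h3

lemma gfun_eq_zero {χ : AddChar F ℂ} (hχ : χ ≠ 1) {U T : Finset (Fin d → F)} (hU : IsSub U)
    (hT : ∀ y ∈ T, ∀ u ∈ U, y + u ∈ T) {m : Fin d → F} (hm : m ∉ perp U) :
    gfun χ T m = 0 := by
  obtain ⟨u, hu, hne⟩ := exists_of_not_perp hχ hU hm
  exact sum_shift_eq_zero (fun y hy => hT y hy u hu) hne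

end Pool.Agent.Helper18.SphereRes
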