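import Pool.Agent.Helper18.SphereRes.Norms
import Pool.Agent.Helper18.SphereRes.Exist

set_option autoImplicit false

open Finset
open scoped ENNReal

namespace Pool.Agent.Helper18.SphereRes

variable {F : Type} [Field F] [Fintype F] [DecidableEq F]

lemma const_ineq {b : ℝ} (hb1 : 1 / 2 ≤ b) (hb2 : b ≤ 1) :
    (1 / 5 : ℝ) * 2 ^ b ≤ (2 / 9 : ℝ) ^ (b - 1 / 2) := by
  have h1 : (2 : ℝ) ^ b ≤ 2 ^ (1 : ℝ) := Real.rpow_le_rpow_of_exponent_le (by norm_num) hb2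
  rw [Real.rpow_one] at h1
  have h2 : (2 / 9 : ℝ) ^ ((1 : ℝ) / 2) ≤ (2 / 9 : ℝ) ^ (b - 1 / 2) :=
    Real.rpow_le_rpow_of_exponent_ge (by norm_num) (by norm_num) (by linarith)
  have h3 : (2 / 5 : ℝ) ≤ (2 / 9 : ℝ) ^ ((1 : ℝ) / 2) := by
    rw [← Real.sqrt_eq_rpow]
    apply Real.le_sqrt_of_sq_le
    norm_num
  linarith

lemma numeric {Q N M a b c : ℝ} {d i : ℕ} (hQ : 1 ≤ Q) (hN0 : 0 < N) (hM0 : 0 < M)
    (hb1 : 1 / 2 ≤ b) (hb2 : b ≤ 1) (hdi : i + 1 ≤ d)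
    (hN : 2 / 9 * Q ^ (d - i - 1) ≤ N) (hM : M ≤ 2 * Q ^ (d - 1))
    (h : (N / M) ^ b * Q ^ d ≤ c * ((Q ^ (d - i)) ^ (a - 1 / 2) * (Q ^ d * N) ^ ((1 : ℝ) / 2))) :
    1 / 5 * Q ^ (((d : ℝ) + 1) / 2 - i * b - (d - i) * a) ≤ c := by
  have hQ0 : 0 < Q := by linarith
  have cd : ((d - i : ℕ) : ℝ) = (d : ℝ) - i := by rw [Nat.cast_sub (by omega)]
  have cd1 : ((d - i - 1 : ℕ) : ℝ) = (d : ℝ) - i - 1 := by
    rw [Nat.cast_sub (by omega), Nat.cast_sub (by omega)]; simp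
  have cd2 : ((d - 1 : ℕ) : ℝ) = (d : ℝ) - 1 := by rw [Nat.cast_sub (by omega)]; simp
  have e1 : (Q ^ (d - i)) ^ (a - 1 / 2) = Q ^ (((d : ℝ) - i) * (a - 1 / 2)) := by
    rw [← Real.rpow_natCast, ← Real.rpow_mul hQ0.le, cd]
  have e2 : (Q ^ d * N) ^ ((1 : ℝ) / 2) = Q ^ ((d : ℝ) / 2) * N ^ ((1 : ℝ) / 2) := by
    rw [Real.mul_rpow (by positivity) hN0.le, ← Real.rpow_natCast, ← Real.rpow_mul hQ0.le]
    congr 2
    ring
  have e3 : (N / M) ^ b = N ^ (b - 1 / 2) * N ^ ((1 : ℝ) / 2) / M ^ b := by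
    rw [Real.div_rpow hN0.le hM0.le, ← Real.rpow_add hN0]
    congr 2
    ring
  have e4 : Q ^ d = Q ^ (d : ℝ) := (Real.rpow_natCast Q d).symm
  set K := Q ^ (((d : ℝ) - i) * (a - 1 / 2)) * (Q ^ ((d : ℝ) / 2) * N ^ ((1 : ℝ) / 2)) with hK
  have hKpos : 0 < K := by positivity
  rw [e1, e2, e3, e4, ← hK] at h
  refine le_of_mul_le_mul_right (le_trans ?_ h) hKpos
  have hMb : M ^ b ≤ 2 ^ b * Q ^ (((d : ℝ) - 1) * b) := by
    calc M ^ b ≤ (2 * Q ^ (d - 1)) ^ b := Real.rpow_le_rpow hM0.le hM (by linarith)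
      _ = 2 ^ b * Q ^ (((d : ℝ) - 1) * b) := by
          rw [Real.mul_rpow (by norm_num) (by positivity), ← Real.rpow_natCast,
            ← Real.rpow_mul hQ0.le, cd2]
  have hNb : (2 / 9 : ℝ) ^ (b - 1 / 2) * Q ^ (((d : ℝ) - i - 1) * (b - 1 / 2)) ≤ N ^ (b - 1 / 2) := by
    calc (2 / 9 : ℝ) ^ (b - 1 / 2) * Q ^ (((d : ℝ) - i - 1) * (b - 1 / 2))
        = (2 / 9 * Q ^ (d - i - 1)) ^ (b - 1 / 2) := by
          rw [Real.mul_rpow (by norm_num) (by positivity), ← Real.rpow_natCast,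
            ← Real.rpow_mul hQ0.le, cd1]
      _ ≤ N ^ (b - 1 / 2) := Real.rpow_le_rpow (by positivity) hN (by linarith)
  have hMpos : 0 < M ^ b := Real.rpow_pos_of_pos hM0 _
  rw [show N ^ (b - 1 / 2) * N ^ ((1 : ℝ) / 2) / M ^ b * Q ^ (d : ℝ)
    = (N ^ (b - 1 / 2) * N ^ ((1 : ℝ) / 2) * Q ^ (d : ℝ)) / M ^ b by ring, le_div_iff₀ hMpos]
  have hN12 : 0 < N ^ ((1 : ℝ) / 2) := Real.rpow_pos_of_pos hN0 _
  calc 1 / 5 * Q ^ (((d : ℝ) + 1) / 2 - i * b - (d - i) * a) * K * M ^ b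
      ≤ 1 / 5 * Q ^ (((d : ℝ) + 1) / 2 - i * b - (d - i) * a) * K
          * (2 ^ b * Q ^ (((d : ℝ) - 1) * b)) := by
        apply mul_le_mul_of_nonneg_left hMb
        positivity
    _ = (1 / 5 * 2 ^ b) * (Q ^ (((d : ℝ) + 1) / 2 - i * b - (d - i) * a)
          * Q ^ (((d : ℝ) - i) * (a - 1 / 2)) * Q ^ ((d : ℝ) / 2) * Q ^ (((d : ℝ) - 1) * b))
          * N ^ ((1 : ℝ) / 2) := by
        rw [hK]; ring
    _ = (1 / 5 * 2 ^ b) * (Q ^ (((d : ℝ) - i - 1) * (b - 1 / 2)) * Q ^ (d : ℝ))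
          * N ^ ((1 : ℝ) / 2) := by
        congr 2
        rw [← Real.rpow_add hQ0, ← Real.rpow_add hQ0, ← Real.rpow_add hQ0, ← Real.rpow_add hQ0]
        congr 1
        ring
    _ ≤ (2 / 9 : ℝ) ^ (b - 1 / 2) * (Q ^ (((d : ℝ) - i - 1) * (b - 1 / 2)) * Q ^ (d : ℝ))
          * N ^ ((1 : ℝ) / 2) := by
        apply mul_le_mul_of_nonneg_right _ hN12.le
        apply mul_le_mul_of_nonneg_right (const_ineq hb1 hb2)
        positivity
    _ = ((2 / 9 : ℝ) ^ (b - 1 / 2) * Q ^ (((d : ℝ) - i - 1) * (b - 1 / 2)))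
          * (N ^ ((1 : ℝ) / 2) * Q ^ (d : ℝ)) := by ring
    _ ≤ N ^ (b - 1 / 2) * (N ^ ((1 : ℝ) / 2) * Q ^ (d : ℝ)) := by
        apply mul_le_mul_of_nonneg_right hNb
        positivity
    _ = N ^ (b - 1 / 2) * N ^ ((1 : ℝ) / 2) * Q ^ (d : ℝ) := by ring

lemma normEll_nonneg {V : Type} [Fintype V] (p : ℝ≥0∞) (g : V → ℂ) : 0 ≤ normEll p g := by
  unfold normEll
  split_ifs
  · exact Real.iSup_nonneg fun m => norm_nonneg _
  · exact Real.rpow_nonneg (Finset.sum_nonneg fun m _ => Real.rpow_nonneg (norm_nonneg _) _) _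

/-- **Lower bound for the restriction constant** coming from the sections of the sphere by the
orthogonal complements of totally isotropic subspaces of dimension `i`. -/
theorem le_restrConst (hF : ringChar F ≠ 2) {χ : AddChar F ℂ} (hχ : χ ≠ 1) {j : F} (hj : j ≠ 0)
    {d i : ℕ} (hdi : 2 * i + 2 ≤ d) {p r : ℝ≥0∞} (hp1 : 1 ≤ p) (hp2 : p ≤ 2) (hr1 : 1 ≤ r)
    (hr2 : r ≤ 2) :
    ENNReal.ofReal (1 / 5 * (Fintype.card F : ℝ) ^
      (((d : ℝ) + 1) / 2 - i * (r⁻¹).toReal - (d - i) * (p⁻¹).toReal)) ≤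
      restrConst χ d j p r := by
  obtain ⟨U, hU, hUc, hUi, hTc⟩ := good_all hF hj i d hdi
  set T := sphere d j ∩ perp U with hT
  have hTS : T ⊆ sphere d j := Finset.inter_subset_left
  have hq3 := three_le_card hF
  have hTpos : 0 < #T := by
    by_contra h0
    have : #T = 0 := by omega
    rw [this] at hTc
    have : 0 < 2 * Fintype.card F ^ (d - i - 1) := by positivity
    omega
  have hTne : T.Nonempty := Finset.card_pos.mp hTpos
  have hTU : ∀ y ∈ T, ∀ u ∈ U, y + u ∈ T := by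
    intro y hy u hu
    rw [hT, Finset.mem_inter, mem_sphere, mem_perp] at hy ⊢
    obtain ⟨h1, h2⟩ := hy
    constructor
    · rw [add_dotProduct, dotProduct_add, dotProduct_add, h1, h2 u hu, hUi u hu u hu,
        dotProduct_comm u y, h2 u hu]
      ring
    · intro v hv
      rw [add_dotProduct, h2 v hv, hUi u hu v hv, add_zero]
  have hb : (1 : ℝ) / 2 ≤ (r⁻¹).toReal ∧ (r⁻¹).toReal ≤ 1 := by
    constructor
    · have : (2 : ℝ≥0∞)⁻¹ ≤ r⁻¹ := ENNReal.inv_le_inv.mpr hr2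
      have h := ENNReal.toReal_mono (ENNReal.inv_ne_top.mpr (by
        intro h; rw [h] at hr1; exact absurd hr1 (by norm_num))) this
      simpa using h
    · have : r⁻¹ ≤ (1 : ℝ≥0∞)⁻¹ := ENNReal.inv_le_inv.mpr hr1
      have h := ENNReal.toReal_mono (by simp) this
      simpa using h
  refine le_sInf fun C hC => ?_
  rcases eq_or_ne C ∞ with rfl | hCtop
  · exact le_top
  have hc := hC (gfun χ T)
  have hc' : normL (sphere d j) r (fourier χ (gfun χ T)) ≤ C.toReal * normEll p (gfun χ T) := by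
    rw [← ENNReal.ofReal_toReal hCtop, ← ENNReal.ofReal_mul ENNReal.toReal_nonneg] at hc
    exact (ENNReal.ofReal_le_ofReal_iff (mul_nonneg ENNReal.toReal_nonneg
      (normEll_nonneg _ _))).mp hc
  have hmain := lower_bound_of_set hχ hU hTU hTS hTne hp1 hp2 hr1 hr2 ENNReal.toReal_nonneg hc'
  rw [← ENNReal.ofReal_toReal hCtop]
  apply ENNReal.ofReal_le_ofReal
  have hperp : (#(perp U) : ℝ) = (Fintype.card F : ℝ) ^ (d - i) := by
    have h := card_perp hχ hU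
    rw [hUc] at h
    have h2 : Fintype.card F ^ d = Fintype.card F ^ (d - i) * Fintype.card F ^ i := by
      rw [← pow_add]; congr 1; omega
    rw [h2] at h
    have h3 : 0 < Fintype.card F ^ i := by positivity
    have := Nat.eq_of_mul_eq_mul_right h3 h
    rw [this]
    push_cast
    rfl
  have hSpos : 0 < #(sphere d j) := lt_of_lt_of_le hTpos (Finset.card_le_card hTS)
  have hQ : (1 : ℝ) ≤ Fintype.card F := by exact_mod_cast (by omega : 1 ≤ Fintype.card F)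
  rw [hperp, one_div r.toReal, one_div p.toReal, ← ENNReal.toReal_inv, ← ENNReal.toReal_inv] at hmain
  refine numeric (N := (#T : ℝ)) (M := (#(sphere d j) : ℝ)) hQ (by exact_mod_cast hTpos)
    (by exact_mod_cast hSpos) hb.1 hb.2 (by omega) ?_ ?_ hmain
  · have : (2 : ℝ) * (Fintype.card F : ℝ) ^ (d - i - 1) ≤ 9 * #T := by exact_mod_cast hTc
    linarith
  · obtain ⟨m, rfl⟩ : ∃ m, d = m + 1 := ⟨d - 1, by omega⟩
    have := sphere_card_le m j
    have h2 : (#(sphere (m + 1) j) : ℝ) ≤ 2 * (Fintype.card F : ℝ) ^ m := by exact_mod_cast this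
    simpa using h2

end Pool.Agent.Helper18.SphereRes
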