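import Pool.Agent.Helper18.SphereRes.Fourier

set_option autoImplicit false

open Finset
open scoped ENNReal

namespace Pool.Agent.Helper18.SphereRes

variable {F : Type} [Field F] [Fintype F] [DecidableEq F] {d : ℕ}

lemma normL_fourier {χ : AddChar F ℂ} (hχ : χ ≠ 1) {j : F} {T : Finset (Fin d → F)}
    (hT : T ⊆ sphere d j) {r : ℝ≥0∞} (hr1 : 1 ≤ r) (hr2 : r ≤ 2) :
    normL (sphere d j) r (fourier χ (gfun χ T))
      = ((#T : ℝ) / #(sphere d j)) ^ (1 / r.toReal) * (Fintype.card F : ℝ) ^ d := by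
  have hrtop : r ≠ ∞ := ne_top_of_le_ne_top (by norm_num) hr2
  have hrpos : 0 < r.toReal := ENNReal.toReal_pos (by
    intro h; rw [h] at hr1; exact absurd hr1 (by norm_num)) hrtop
  unfold normL
  rw [if_neg hrtop]
  have h1 : ∑ x ∈ sphere d j, ‖fourier χ (gfun χ T) x‖ ^ r.toReal
      = #T * ((Fintype.card F : ℝ) ^ d) ^ r.toReal := by
    have : ∀ x ∈ sphere d j, ‖fourier χ (gfun χ T) x‖ ^ r.toReal
        = if x ∈ T then ((Fintype.card F : ℝ) ^ d) ^ r.toReal else 0 := by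
      intro x _
      rw [fourier_gfun hχ]
      split_ifs with h
      · rw [norm_pow]; simp
      · rw [norm_zero, Real.zero_rpow hrpos.ne']
    rw [Finset.sum_congr rfl this, ← Finset.sum_filter]
    rw [Finset.sum_const, nsmul_eq_mul]
    congr 2
    rw [Finset.filter_mem_eq_inter, Finset.inter_eq_right.mpr hT]
  rw [h1]
  have hq : (0 : ℝ) ≤ (Fintype.card F : ℝ) ^ d := by positivity
  rw [show (#(sphere d j) : ℝ)⁻¹ * (#T * ((Fintype.card F : ℝ) ^ d) ^ r.toReal)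
    = ((#T : ℝ) / #(sphere d j)) * ((Fintype.card F : ℝ) ^ d) ^ r.toReal by
      rw [div_eq_mul_inv]; ring]
  rw [Real.mul_rpow (by positivity) (by positivity), ← Real.rpow_mul hq,
    mul_one_div_cancel hrpos.ne', Real.rpow_one]

/-- Power mean inequality: `‖g‖_{ℓ^p} ≤ W^{1/p-1/2} ‖g‖_{ℓ^2}` for `g` supported on a set of
`W` points, `1 ≤ p ≤ 2`. -/
lemma normEll_le {V : Type} [Fintype V] [DecidableEq V] (g : V → ℂ) (W : Finset V)
    (hW : ∀ m, m ∉ W → g m = 0) (hWne : W.Nonempty) {p : ℝ≥0∞} (hp1 : 1 ≤ p) (hp2 : p ≤ 2) :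
    normEll p g ≤ (#W : ℝ) ^ (1 / p.toReal - 1 / 2) * (∑ m, ‖g m‖ ^ 2) ^ ((1 : ℝ) / 2) := by
  have hptop : p ≠ ∞ := ne_top_of_le_ne_top (by norm_num) hp2
  have hp1' : 1 ≤ p.toReal := by
    have := ENNReal.toReal_mono hptop hp1
    simpa using this
  have hp2' : p.toReal ≤ 2 := by
    have := ENNReal.toReal_mono (by norm_num) hp2
    simpa using this
  unfold normEll
  rw [if_neg hptop]
  set s := p.toReal with hs
  have hspos : 0 < s := by linarith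
  have hcard : (0 : ℝ) < #W := by exact_mod_cast hWne.card_pos
  have e1 : ∑ m, ‖g m‖ ^ s = ∑ m ∈ W, ‖g m‖ ^ s := by
    symm
    apply Finset.sum_subset (Finset.subset_univ _)
    intro m _ hm
    rw [hW m hm, norm_zero, Real.zero_rpow hspos.ne']
  have e2 : ∑ m, ‖g m‖ ^ 2 = ∑ m ∈ W, ‖g m‖ ^ 2 := by
    symm
    apply Finset.sum_subset (Finset.subset_univ _)
    intro m _ hm
    rw [hW m hm, norm_zero]
    norm_num
  rw [e1, e2]
  have hex : 1 ≤ 2 / s := by rw [le_div_iff₀ hspos]; linarith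
  have hj := Real.rpow_arith_mean_le_arith_mean_rpow W (fun _ => (#W : ℝ)⁻¹)
    (fun m => ‖g m‖ ^ s) (fun _ _ => by positivity) (by
      rw [Finset.sum_const, nsmul_eq_mul, mul_inv_cancel₀ hcard.ne'])
    (fun m _ => by positivity) hex
  have e3 : ∀ m ∈ W, (#W : ℝ)⁻¹ * (‖g m‖ ^ s) ^ (2 / s) = (#W : ℝ)⁻¹ * ‖g m‖ ^ 2 := by
    intro m _
    rw [← Real.rpow_mul (norm_nonneg _), mul_div_cancel₀ _ hspos.ne']
    norm_num
  rw [Finset.sum_congr rfl e3, ← Finset.mul_sum, ← Finset.mul_sum] at hj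
  set A := ∑ m ∈ W, ‖g m‖ ^ s with hA
  set B := ∑ m ∈ W, ‖g m‖ ^ 2 with hB
  have hA0 : 0 ≤ A := Finset.sum_nonneg fun m _ => by positivity
  have hB0 : 0 ≤ B := Finset.sum_nonneg fun m _ => by positivity
  -- take square roots
  have h2 : ((#W : ℝ)⁻¹ * A) ^ (1 / s) ≤ ((#W : ℝ)⁻¹ * B) ^ ((1 : ℝ) / 2) := by
    have := Real.rpow_le_rpow (by positivity) hj (show (0 : ℝ) ≤ 1 / 2 by norm_num)
    rw [← Real.rpow_mul (by positivity)] at this
    rwa [show 2 / s * (1 / 2) = 1 / s by field_simp] at this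
  rw [Real.mul_rpow (by positivity) hA0, Real.mul_rpow (by positivity) hB0] at h2
  rw [Real.inv_rpow hcard.le, Real.inv_rpow hcard.le] at h2
  have h3 : A ^ (1 / s) ≤ (#W : ℝ) ^ (1 / s) * (((#W : ℝ) ^ ((1 : ℝ) / 2))⁻¹ * B ^ ((1 : ℝ) / 2)) := by
    have hpos : (0 : ℝ) < (#W : ℝ) ^ (1 / s) := Real.rpow_pos_of_pos hcard _
    rw [inv_mul_le_iff₀ hpos] at h2
    exact h2
  calc A ^ (1 / s) ≤ _ := h3
    _ = (#W : ℝ) ^ (1 / s - 1 / 2) * B ^ ((1 : ℝ) / 2) := by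
        rw [Real.rpow_sub hcard]; ring

/-- The main inequality, in terms of the invariant set `T`. -/
lemma lower_bound_of_set {χ : AddChar F ℂ} (hχ : χ ≠ 1) {j : F} {U T : Finset (Fin d → F)}
    (hU : IsSub U) (hTU : ∀ y ∈ T, ∀ u ∈ U, y + u ∈ T) (hT : T ⊆ sphere d j) (hTne : T.Nonempty)
    {p r : ℝ≥0∞} (hp1 : 1 ≤ p) (hp2 : p ≤ 2) (hr1 : 1 ≤ r) (hr2 : r ≤ 2) {c : ℝ} (hc0 : 0 ≤ c)
    (hc : normL (sphere d j) r (fourier χ (gfun χ T)) ≤ c * normEll p (gfun χ T)) :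
    ((#T : ℝ) / #(sphere d j)) ^ (1 / r.toReal) * (Fintype.card F : ℝ) ^ d
      ≤ c * ((#(perp U) : ℝ) ^ (1 / p.toReal - 1 / 2)
        * ((Fintype.card F : ℝ) ^ d * #T) ^ ((1 : ℝ) / 2)) := by
  rw [normL_fourier hχ hT hr1 hr2] at hc
  refine hc.trans (mul_le_mul_of_nonneg_left ?_ hc0)
  rw [← sum_norm_sq hχ T]
  have hperp : (perp U).Nonempty := ⟨0, by simp [perp]⟩
  exact normEll_le _ (perp U) (fun m hm => gfun_eq_zero hχ hU hTU hm) hperp hp1 hp2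

end Pool.Agent.Helper18.SphereRes
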